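import Pool.Agent.H89.CMC.Targets2
import Pool.Agent.H31.CM4.EXP

/-!
# The expansion of the twisted sums with weights (MP_52e316_nt, board cm4, row E_EXP)
-/

set_option autoImplicit false
set_option linter.unusedSectionVars false
set_option linter.unusedVariables false

open MeasureTheory Set Filter NumberField NumberField.InfinitePlace Pool.Agent.H65.CM4
  Pool.Agent.H65.CMC Pool.Agent.H89.CM4 Pool.Agent.H89.CMC
open Pool.Agent.H31.CM4 (expQuo exp_quo_mul exp_cop exp_mem_dv exp_sum_factor exp_group)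
open scoped Real

namespace Pool.Agent.H40.CMC

variable (k : Type) [Field k] [NumberField k] [IsTotallyReal k]

open Classical in
theorem pf_EXPm (hHEC : T_HECm k) (hIND : T_IND k) (hRFM : T_RFM k) (hCRT : T_CRT k)
    (hFLS : T_FLS k) (hIDC : T_IDC k) (hQZR : T_QZR k) : T_EXPm k := by
  intro b μ M s α A Q hb hM hs0 hs2 _ hQ
  obtain ⟨hI, hS, -⟩ := hIDC
  have hy : ∀ v, 0 < zy Q v := (hQZR.2.2.2 Q hQ).1
  -- the first form
  have e1 : ∀ n ∈ Sq b A, α n * ∑ L ∈ (Ls n).filter (fun L => Dv n L Q),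
      Zm s μ (M ⊓ L) (zx Q) (zy Q) = ∑ m ∈ dv n, α (m * expQuo n m) /
        ((nm (m * expQuo n m) : ℝ) : ℂ) * ∑ L' ∈ Ls m, (Rn m L' Q : ℂ) *
          ∑ J ∈ dv (expQuo n m), ((nm J : ℝ) : ℂ) ^ (1 - 2 * s) *
            ((nm (expQuo n m) : ℝ) : ℂ) ^ s * Zm s μ (M ⊓ L' ⊓ kO J) (zx Q) (zy Q) := by
    intro n hn
    have hn' := (hS b A n).1 hn
    obtain ⟨hn0, hnq, hnc, hnA⟩ := hn'
    have h1 : ∑ L ∈ (Ls n).filter (fun L => Dv n L Q), Zm s μ (M ⊓ L) (zx Q) (zy Q) =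
        (1 / ((nm n : ℝ) : ℂ)) * ∑ m ∈ dv n, ∑ L ∈ Ls n, (Rn m L Q : ℂ) *
          Zm s μ (M ⊓ L) (zx Q) (zy Q) := by
      rw [Finset.sum_comm, Finset.mul_sum, Finset.sum_filter]
      refine Finset.sum_congr rfl fun L hL => ?_
      rw [← Finset.sum_mul, ← mul_assoc]
      have h2 := hIND n L Q hn0 hnq hL
      have h3 : (if Dv n L Q then (1 : ℂ) else 0) =
          (1 / ((nm n : ℝ) : ℂ)) * ∑ m ∈ dv n, (Rn m L Q : ℂ) := by
        have h4 := congrArg (fun r : ℝ => (r : ℂ)) h2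
        push_cast at h4
        rw [← h4]
        split_ifs <;> simp
      rw [← h3]
      split_ifs <;> simp
    rw [h1, ← mul_assoc, Finset.mul_sum]
    refine Finset.sum_congr rfl fun m hm => ?_
    have h2 : m ∣ n := (exp_mem_dv hI hn0).1 hm
    have h3 : m * expQuo n m = n := exp_quo_mul h2
    have hm0 : m ≠ ⊥ := by
      rintro rfl
      exact hn0 (zero_dvd_iff.1 h2)
    have hg0 : expQuo n m ≠ ⊥ := by
      intro h4
      rw [h4] at h3
      exact hn0 (by rw [← h3]; exact mul_zero m)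
    have hsq : Squarefree (m * expQuo n m) := by rw [h3]; exact hnq
    have hc : m ⊔ expQuo n m = ⊤ := exp_cop hsq
    have h4 := exp_group k hCRT hRFM hm0 hg0 hc Q (fun L => Zm s μ (M ⊓ L) (zx Q) (zy Q))
    rw [h3] at h4 ⊢
    rw [h4]
    congr 1
    · ring
    · refine Finset.sum_congr rfl fun L' hL' => ?_
      have hSf : Sf b (m * expQuo n m) := by
        rw [h3]
        exact ⟨hn0, hnq, hnc⟩
      have h5 := hHEC b μ M m (expQuo n m) L' (zx Q) (zy Q) s hb hM hSf hL' hy hs0 hs2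
      rw [h3] at h5
      rw [h5]
  unfold Bm
  rw [Finset.sum_congr rfl e1]
  have e2 := exp_sum_factor hI hS b A (fun m g => α (m * g) / ((nm (m * g) : ℝ) : ℂ) *
    ∑ L' ∈ Ls m, (Rn m L' Q : ℂ) * ∑ J ∈ dv g, ((nm J : ℝ) : ℂ) ^ (1 - 2 * s) *
      ((nm g : ℝ) : ℂ) ^ s * Zm s μ (M ⊓ L' ⊓ kO J) (zx Q) (zy Q))
  refine e2.trans ?_
  refine Finset.sum_congr rfl fun m hm => ?_
  have e3 : ∀ L ∈ Ls m, cfm s μ α b A M m L (fun v => (zx Q v : ℂ)) (fun v => (zy Q v : ℂ)) *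
      (Rn m L Q : ℂ) = ∑ g ∈ (Sq b A).filter (fun g => m * g ∈ Sq b A),
        α (m * g) / ((nm (m * g) : ℝ) : ℂ) * ((Rn m L Q : ℂ) *
          ∑ J ∈ dv g, ((nm J : ℝ) : ℂ) ^ (1 - 2 * s) * ((nm g : ℝ) : ℂ) ^ s *
            Zm s μ (M ⊓ L ⊓ kO J) (zx Q) (zy Q)) := by
    intro L _
    unfold cfm Zm
    rw [Finset.sum_mul]
    refine Finset.sum_congr rfl fun g _ => ?_
    ring
  rw [Finset.sum_congr rfl e3, Finset.sum_comm]
  refine Finset.sum_congr rfl fun g _ => ?_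
  rw [Finset.mul_sum]

end Pool.Agent.H40.CMC
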