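import Pool.Agent.H23.CMC.Targets

/-! CMC, row G_XI: the completed `L`-function. -/

set_option autoImplicit false

open NumberField MeasureTheory Set Filter Complex
open scoped nonZeroDivisors Real

namespace Pool.Agent.H40.CMC

open Pool.Agent.H23.CMC
open Pool.Agent.H65.CM4 (Sq nm dg Pl rv)
open Pool.Agent.H65.CMC (Emb ty PrTo IsHk ms IsLk gg GM cG Km Idx cdc Fmc lc)
open Pool.Agent.H23.CM4 (nJ Jd Nr wB)
open Pool.Agent.H23.LC (HG ag)

/-- the product of the factors -/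
noncomputable def HH (n : ℕ) (g : ℂ → ℂ) (D : ℝ) (E : ℂ → ℂ) (s : ℂ) : ℂ :=
  (s * (s - 1)) ^ (n - 1) * g s * (D : ℂ) ^ (s / 2) * E s

theorem HH_diff (n : ℕ) (g : ℂ → ℂ) (D : ℝ) (E : ℂ → ℂ) (hD : 0 < D) (hE : Differentiable ℂ E)
    (s : ℂ) (hg : DifferentiableAt ℂ g s) : DifferentiableAt ℂ (HH n g D E) s := by
  unfold HH
  have h1 : DifferentiableAt ℂ (fun s : ℂ => (D : ℂ) ^ (s / 2)) s := by
    refine DifferentiableAt.const_cpow (by fun_prop) (Or.inl ?_)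
    exact_mod_cast hD.ne'
  have h2 : DifferentiableAt ℂ E s := hE s
  fun_prop

theorem HH_growth (n : ℕ) (g : ℂ → ℂ) (D : ℝ) (E : ℂ → ℂ) (hD : 1 ≤ D)
    (hg : ∀ b : ℝ, ∃ C : ℝ, ∀ s : ℂ, 1 / 4 ≤ s.re → s.re ≤ b → ‖g s‖ ≤ C)
    (hE : ∀ b : ℝ, ∃ C A : ℝ, ∀ s : ℂ, |s.re| ≤ b → ‖E s‖ ≤ C * Real.exp (A * |s.im|)) (b : ℝ) :
    ∃ C A : ℝ, 0 ≤ C ∧ 0 ≤ A ∧ ∀ s : ℂ, 1 / 2 ≤ s.re → s.re ≤ b →
      ‖HH n g D E s‖ ≤ C * Real.exp (A * |s.im|) := by
  obtain ⟨C1, h1⟩ := hg b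
  obtain ⟨C2, A2, h2⟩ := hE b
  refine ⟨((2 * (n - 1)).factorial * Real.exp (b + 1)) * |C1| * D ^ (b / 2) * |C2|, 1 + |A2|,
    by positivity, by positivity, fun s hs hb => ?_⟩
  have hb0 : 0 ≤ b := by linarith
  have hre : |s.re| ≤ b := by rw [abs_of_nonneg (by linarith)]; exact hb
  have n1 : ‖s‖ ≤ b + |s.im| := (Complex.norm_le_abs_re_add_abs_im s).trans (by linarith)
  have n2 : ‖s - 1‖ ≤ b + 1 + |s.im| := by
    calc ‖s - 1‖ ≤ ‖s‖ + ‖(1 : ℂ)‖ := norm_sub_le _ _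
      _ ≤ _ := by rw [norm_one]; linarith
  have n3 : ‖s * (s - 1)‖ ≤ (b + 1 + |s.im|) ^ 2 := by
    rw [norm_mul, sq]
    exact mul_le_mul (by linarith) n2 (norm_nonneg _) (by positivity)
  have n4 : ‖(s * (s - 1)) ^ (n - 1)‖ ≤ (2 * (n - 1)).factorial * Real.exp (b + 1 + |s.im|) := by
    rw [norm_pow]
    calc ‖s * (s - 1)‖ ^ (n - 1) ≤ ((b + 1 + |s.im|) ^ 2) ^ (n - 1) :=
          pow_le_pow_left₀ (norm_nonneg _) n3 _
      _ = (b + 1 + |s.im|) ^ (2 * (n - 1)) := by rw [← pow_mul]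
      _ ≤ _ := by
          have := Real.pow_div_factorial_le_exp (b + 1 + |s.im|) (by positivity) (2 * (n - 1))
          rw [div_le_iff₀ (by positivity)] at this
          linarith
  have n5 : ‖g s‖ ≤ |C1| := (h1 s (by linarith) hb).trans (le_abs_self _)
  have n6 : ‖(D : ℂ) ^ (s / 2)‖ ≤ D ^ (b / 2) := by
    rw [Complex.norm_cpow_eq_rpow_re_of_pos (by linarith)]
    refine Real.rpow_le_rpow_of_exponent_le hD ?_
    have : (s / 2).re = s.re / 2 := by simp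
    rw [this]
    linarith
  have n7 : ‖E s‖ ≤ |C2| * Real.exp (|A2| * |s.im|) := by
    refine (h2 s hre).trans ?_
    refine mul_le_mul (le_abs_self _) ?_ (Real.exp_pos _).le (abs_nonneg _)
    exact Real.exp_le_exp.2 (mul_le_mul_of_nonneg_right (le_abs_self _) (abs_nonneg _))
  unfold HH
  rw [norm_mul, norm_mul, norm_mul]
  calc ‖(s * (s - 1)) ^ (n - 1)‖ * ‖g s‖ * ‖(D : ℂ) ^ (s / 2)‖ * ‖E s‖
      ≤ ((2 * (n - 1)).factorial * Real.exp (b + 1 + |s.im|)) * |C1| * D ^ (b / 2) *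
        (|C2| * Real.exp (|A2| * |s.im|)) := by gcongr
    _ = ((2 * (n - 1)).factorial * Real.exp (b + 1)) * |C1| * D ^ (b / 2) * |C2| *
        Real.exp ((1 + |A2|) * |s.im|) := by
        rw [show (1 + |A2|) * |s.im| = |s.im| + |A2| * |s.im| by ring,
          Real.exp_add (b + 1) |s.im|, Real.exp_add |s.im| (|A2| * |s.im|)]
        ring

theorem ident (g E E' : ℂ → ℂ) (ε : ℂ) (D : ℝ) (hD : 0 < D) (hE : Differentiable ℂ E)
    (hE' : Differentiable ℂ E') (hg : Differentiable ℂ (fun s => (g s)⁻¹))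
    (h : ∀ s : ℂ, 1 < s.re → E (1 - s) * (g s)⁻¹ =
      ε * (D : ℂ) ^ (s - 1 / 2) * E' s * (g (1 - s))⁻¹) (s : ℂ) :
    E (1 - s) * (g s)⁻¹ = ε * (D : ℂ) ^ (s - 1 / 2) * E' s * (g (1 - s))⁻¹ := by
  have h1 : Differentiable ℂ (fun s => E (1 - s) * (g s)⁻¹) := by
    have : Differentiable ℂ (fun s : ℂ => E (1 - s)) := hE.comp (by fun_prop)
    exact this.mul hg
  have h2 : Differentiable ℂ
      (fun s => ε * (D : ℂ) ^ (s - 1 / 2) * E' s * (g (1 - s))⁻¹) := by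
    have a1 : Differentiable ℂ (fun s : ℂ => (g (1 - s))⁻¹) :=
      hg.comp (g := fun s => (g s)⁻¹) (f := fun s => 1 - s) (by fun_prop)
    have a2 : Differentiable ℂ (fun s : ℂ => (D : ℂ) ^ (s - 1 / 2)) := by
      refine Differentiable.const_cpow (by fun_prop) (Or.inl ?_)
      exact_mod_cast hD.ne'
    exact ((a2.const_mul ε).mul hE').mul a1
  have h3 : (fun s => E (1 - s) * (g s)⁻¹) =
      (fun s => ε * (D : ℂ) ^ (s - 1 / 2) * E' s * (g (1 - s))⁻¹) := by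
    refine AnalyticOnNhd.eq_of_eventuallyEq (𝕜 := ℂ) (z₀ := 2)
      (fun z _ => h1.analyticAt z) (fun z _ => h2.analyticAt z) ?_
    have : {z : ℂ | 1 < z.re} ∈ nhds (2 : ℂ) :=
      (isOpen_lt continuous_const Complex.continuous_re).mem_nhds (by simp)
    filter_upwards [this] with z hz
    exact h z hz
  exact congrFun h3 s

theorem overlap (n : ℕ) (g E E' : ℂ → ℂ) (ε : ℂ) (D : ℝ) (hD : 0 < D) (s : ℂ) (h1 : g s ≠ 0)
    (h2 : g (1 - s) ≠ 0) (h : E (1 - (1 - s)) * (g (1 - s))⁻¹ =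
      ε * (D : ℂ) ^ ((1 - s) - 1 / 2) * E' (1 - s) * (g (1 - (1 - s)))⁻¹) :
    HH n g D E s = ε * HH n g D E' (1 - s) := by
  rw [sub_sub_cancel] at h
  have hD0 : (D : ℂ) ≠ 0 := by exact_mod_cast hD.ne'
  have hs : E s = ε * (D : ℂ) ^ ((1 - s) - 1 / 2) * E' (1 - s) * (g s)⁻¹ * g (1 - s) := by
    rw [← h]
    field_simp
  unfold HH
  rw [hs]
  have hp : (D : ℂ) ^ ((1 - s) / 2) = (D : ℂ) ^ (s / 2) * (D : ℂ) ^ ((1 - s) - 1 / 2) := by
    rw [← Complex.cpow_add _ _ hD0]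
    ring_nf
  rw [hp, show (1 - s) * ((1 - s) - 1) = s * (s - 1) by ring]
  field_simp

theorem pf_XI (hFE : T_FEc) (hGMP : T_GMP) (hCJ : T_CJ) (hDCX : T_DCX) : T_XIc := by
  intro k _ _ _ K _ _ _ Φ f m ψ hc
  obtain ⟨hn, -, hD', -⟩ := hDCX k K hc.rk
  have hD : 1 ≤ dC K f := (hD' f hc.hk.fne).1
  have hD0 : 0 < dC K f := by linarith
  obtain ⟨hg1, hg2, -, hg4, hg5, hg6, -⟩ := hGMP k m
  obtain ⟨hc', -, -, -, hgM⟩ := hCJ k K Φ f m ψ hc
  obtain ⟨L, E, ε, hε, hE, hLE, hLm, hLs, hEg, hfe⟩ := hFE k K Φ f m ψ hc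
  obtain ⟨L', E', ε', -, hE', hLE', -, hLs', hEg', -⟩ := hFE k K Φ f (-m) _ hc'
  have hLt : ∀ s : ℂ, 1 < s.re → L' s =
      ∑' J : (Ideal (𝓞 K))⁰, (starRingEnd ℂ) (cf ψ J) * (nJ J : ℂ) ^ (-s) :=
    fun s hs => (hLs' s hs).tsum_eq.symm
  have hne : ∀ s : ℂ, 0 < s.re → s ≠ 0 := by
    intro s hs h
    rw [h] at hs
    simp at hs
  have hne1 : ∀ s : ℂ, 1 < s.re → s ≠ 1 := by
    intro s hs h
    rw [h] at hs
    simp at hs
  have hstar : ∀ s : ℂ, E (1 - s) * (gM m s)⁻¹ =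
      ε * (dC K f : ℂ) ^ (s - 1 / 2) * E' s * (gM m (1 - s))⁻¹ := by
    refine ident (gM m) E E' ε (dC K f) hD0 hE hE' hg4 ?_
    intro s hs
    have hgs : gM m s ≠ 0 := (hg1 s (by linarith)).2
    rw [hfe s hs, (hLE' s (hne s (by linarith)) (hne1 s hs)).2, hLt s hs]
    field_simp
  have hov : ∀ s : ℂ, 0 < s.re → s.re < 1 → HH (dg k) (gM m) (dC K f) E s =
      ε * HH (dg k) (gM m) (dC K f) E' (1 - s) := by
    intro s h0 h1
    have h1' : 0 < (1 - s).re := by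
      rw [Complex.sub_re, Complex.one_re]
      linarith
    exact overlap (dg k) (gM m) E E' ε (dC K f) hD0 s (hg1 s h0).2 (hg1 _ h1').2 (hstar (1 - s))
  -- the L-function
  have hL0 : ∃ L0 : ℂ → ℂ, DifferentiableOn ℂ L0 {1}ᶜ ∧ ∀ s : ℂ, s ≠ 0 → s ≠ 1 → L0 s = L s := by
    by_cases hm : m = 0
    · have hE0 : E 0 = 0 := by
        have h := hstar 1
        have hv : (gM m 0)⁻¹ = 0 := by
          have v : Pl k := Classical.arbitrary _
          exact hg5 v (by rw [hm]; rfl)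
        rw [sub_self, hv, mul_zero] at h
        have h1 : gM m 1 ≠ 0 := (hg1 1 (by simp)).2
        rcases mul_eq_zero.1 h with h | h
        · exact h
        · exact absurd h (inv_ne_zero h1)
      refine ⟨fun s => dslope E 0 s / (s - 1), ?_, ?_⟩
      · have hd : Differentiable ℂ (dslope E 0) := by
          rw [← differentiableOn_univ]
          exact (Complex.differentiableOn_dslope (univ_mem)).2 hE.differentiableOn
        intro s hs
        have hs1 : s - 1 ≠ 0 := sub_ne_zero.2 hs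
        exact ((hd s).div (by fun_prop) hs1).differentiableWithinAt
      · intro s h0 h1
        have h1' : s - 1 ≠ 0 := sub_ne_zero.2 h1
        beta_reduce
        rw [dslope_of_ne _ h0, slope_def_field, hE0, sub_zero, sub_zero, (hLE s h0 h1).2]
        field_simp
    · exact ⟨L, (hLm hm).differentiableOn, fun s _ _ => rfl⟩
  obtain ⟨L0, hL0d, hL0e⟩ := hL0
  set Ξ : ℂ → ℂ := fun s => if 0 < s.re then HH (dg k) (gM m) (dC K f) E s else
    ε * HH (dg k) (gM m) (dC K f) E' (1 - s) with hΞ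
  have hΞ1 : ∀ s : ℂ, 0 < s.re → Ξ s = HH (dg k) (gM m) (dC K f) E s := by
    intro s hs
    simp only [hΞ]
    rw [if_pos hs]
  have hΞ2 : ∀ s : ℂ, s.re < 1 → Ξ s = ε * HH (dg k) (gM m) (dC K f) E' (1 - s) := by
    intro s hs
    by_cases h0 : 0 < s.re
    · rw [hΞ1 s h0, hov s h0 hs]
    · simp only [hΞ]
      rw [if_neg h0]
  have hGMs : ∀ (F : ℂ → ℂ) (l s : ℂ), F s = s * (s - 1) * l →
      HH (dg k) (gM m) (dC K f) F s = GM m s * (dC K f : ℂ) ^ (s / 2) * l := by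
    intro F l s h
    unfold HH
    obtain ⟨N, hN⟩ : ∃ N, dg k = N + 1 := ⟨dg k - 1, by omega⟩
    rw [h, hg2 s, hN, Nat.add_sub_cancel, pow_succ]
    ring
  refine ⟨Ξ, L0, ε, hε, ?_, ⟨hL0d, ?_⟩, ?_, ?_, ?_⟩
  · intro s
    by_cases h0 : 0 < s.re
    · have h1 : DifferentiableAt ℂ (HH (dg k) (gM m) (dC K f) E) s :=
        HH_diff (dg k) (gM m) (dC K f) E hD0 hE s (hg1 s h0).1
      refine h1.congr_of_eventuallyEq ?_
      filter_upwards [(isOpen_lt continuous_const Complex.continuous_re).mem_nhds h0] with z hz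
      exact hΞ1 z hz
    · have h1' : 0 < (1 - s).re := by
        rw [Complex.sub_re, Complex.one_re]
        linarith
      have h1 : DifferentiableAt ℂ (HH (dg k) (gM m) (dC K f) E') (1 - s) :=
        HH_diff (dg k) (gM m) (dC K f) E' hD0 hE' _ (hg1 _ h1').1
      have h2 : DifferentiableAt ℂ (fun z => ε * HH (dg k) (gM m) (dC K f) E' (1 - z)) s := by
        have h3 : DifferentiableAt ℂ (fun z : ℂ => 1 - z) s := by fun_prop
        exact (DifferentiableAt.comp s h1 h3).const_mul ε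
      refine h2.congr_of_eventuallyEq ?_
      have hs1 : s.re < 1 := by linarith
      filter_upwards [(isOpen_lt Complex.continuous_re continuous_const).mem_nhds hs1] with z hz
      exact hΞ2 z hz
  · intro s hs
    rw [hL0e s (hne s (by linarith)) (hne1 s hs)]
    have h1 := hLs s hs
    have h2 : (fun I : (Ideal (𝓞 K))⁰ => ψ I * (Ideal.absNorm (I : Ideal (𝓞 K)) : ℂ) ^ (-s)) =
        fun J : (Ideal (𝓞 K))⁰ => cf ψ J * (nJ J : ℂ) ^ (-s) := by
      funext J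
      unfold cf nJ
      push_cast
      rfl
    rw [h2]
    exact h1
  · intro s h0 h1
    rw [hΞ1 s h0, hL0e s (hne s h0) h1]
    exact hGMs E (L s) s (hLE s (hne s h0) h1).2
  · intro s hs
    have h1 : (1 - s).re < 1 := by
      rw [Complex.sub_re, Complex.one_re]
      linarith
    rw [hΞ2 _ h1, sub_sub_cancel, ← hLt s hs]
    rw [hGMs E' (L' s) s (hLE' s (hne s (by linarith)) (hne1 s hs)).2]
  · intro b
    obtain ⟨C1, A1, hC1, hA1, h1⟩ := HH_growth (dg k) (gM m) (dC K f) E hD hg6 hEg b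
    obtain ⟨C2, A2, hC2, hA2, h2⟩ := HH_growth (dg k) (gM m) (dC K f) E' hD hg6 hEg' (b + 1)
    refine ⟨C1 + C2, A1 + A2, fun s hs => ?_⟩
    have hre := abs_le.1 hs
    by_cases h : 1 / 2 ≤ s.re
    · rw [hΞ1 s (by linarith)]
      refine (h1 s h hre.2).trans ?_
      have e1 : Real.exp (A1 * |s.im|) ≤ Real.exp ((A1 + A2) * |s.im|) := by
        apply Real.exp_le_exp.2
        have := abs_nonneg s.im
        nlinarith
      exact mul_le_mul (by linarith) e1 (Real.exp_pos _).le (by linarith)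
    · rw [hΞ2 s (by linarith), norm_mul]
      have a1 : 1 / 2 ≤ (1 - s).re := by
        rw [Complex.sub_re, Complex.one_re]
        linarith
      have a2 : (1 - s).re ≤ b + 1 := by
        rw [Complex.sub_re, Complex.one_re]
        linarith [hre.1]
      have a3 : |(1 - s).im| = |s.im| := by
        rw [Complex.sub_im, Complex.one_im, zero_sub, abs_neg]
      have h3 := h2 (1 - s) a1 a2
      rw [a3] at h3
      have e1 : Real.exp (A2 * |s.im|) ≤ Real.exp ((A1 + A2) * |s.im|) := by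
        apply Real.exp_le_exp.2
        have := abs_nonneg s.im
        nlinarith
      calc ‖ε‖ * ‖HH (dg k) (gM m) (dC K f) E' (1 - s)‖
          ≤ 1 * ‖HH (dg k) (gM m) (dC K f) E' (1 - s)‖ :=
            mul_le_mul_of_nonneg_right hε (norm_nonneg _)
        _ = ‖HH (dg k) (gM m) (dC K f) E' (1 - s)‖ := one_mul _
        _ ≤ C2 * Real.exp (A2 * |s.im|) := h3
        _ ≤ _ := mul_le_mul (by linarith) e1 (Real.exp_pos _).le (by linarith)

end Pool.Agent.H40.CMC
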